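import Mathlib

/-!
# Many disjoint stationary sets below an inaccessible cardinal
-/

set_option autoImplicit false

open Cardinal Ordinal Set Order

namespace Pool.Agent.Helper79K.QP

universe u

variable {κ : Cardinal.{u}}

theorem regOrder (hκ : κ.IsInaccessible) : IsRegularCardinalOrder κ.ord.ToType := by
  refine ⟨?_⟩
  rw [type_toType, cof_toType, hκ.isRegular.cof_ord]

theorem cof_toType_eq (hκ : κ.IsInaccessible) : Order.cof κ.ord.ToType = κ := by
  rw [cof_toType, hκ.isRegular.cof_ord]

/-- the elements of cofinality `μ` form a stationary set -/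
theorem stationary_cof (hκ : κ.IsInaccessible) (μ : Cardinal.{u}) (hμ : μ.IsRegular) (hμκ : μ < κ) :
    IsStationary {x : κ.ord.ToType | Order.cof (Iio x) = μ} := by
  intro C hC
  have := regOrder hκ
  have hN := IsClub.isNormal_enum hC
  set f : κ.ord.ToType → κ.ord.ToType := Subtype.val ∘ enum C hC.isCofinal with hf
  have hlt : μ.ord < type (α := κ.ord.ToType) (· < ·) := by
    rw [type_toType]
    exact ord_lt_ord.2 hμκ
  obtain ⟨l, hl⟩ := typein_surj (α := κ.ord.ToType) (· < ·) hlt
  refine ⟨f l, ?_, (enum C hC.isCofinal l).2⟩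
  have h1 : Order.cof (Iio l) = μ := by
    rw [Order.cof_Iio, hl, hμ.cof_ord]
  rw [mem_ofPred_eq, ← h1]
  symm
  have hlim : IsSuccLimit l := by
    have h2 : IsSuccLimit μ.ord := isSuccLimit_ord hμ.aleph0_le
    refine ⟨?_, ?_⟩
    · intro hmin
      have : typein (α := κ.ord.ToType) (· < ·) l = 0 := by
        by_contra hcon'
        have hcon : 0 < typein (α := κ.ord.ToType) (· < ·) l := pos_iff_ne_zero.2 hcon'
        obtain ⟨m, hm⟩ := typein_surj (α := κ.ord.ToType) (· < ·) (hcon.trans (typein_lt_type _ l))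
        have h3 : m < l := (typein_lt_typein (α := κ.ord.ToType) (· < ·)).1 (by rw [hm]; exact hcon)
        exact absurd (hmin h3.le) (not_le.2 h3)
      rw [hl] at this
      exact hμ.ord_pos.ne' this
    · intro b hb
      have h3 : typein (α := κ.ord.ToType) (· < ·) b < μ.ord := by
        rw [← hl]; exact (typein_lt_typein (α := κ.ord.ToType) (· < ·)).2 hb.lt
      have h4 := h2.succ_lt h3
      obtain ⟨m, hm⟩ := typein_surj (α := κ.ord.ToType) (· < ·) (h4.trans hlt)
      have h5 : b < m := (typein_lt_typein (α := κ.ord.ToType) (· < ·)).1 (by rw [hm]; exact lt_succ _)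
      have h6 : m < l := (typein_lt_typein (α := κ.ord.ToType) (· < ·)).1 (by rw [hm, hl]; exact h4)
      exact hb.2 h5 h6
  refine cof_congr_of_strictMono (f := fun b : Iio l => (⟨f b.1, hN.strictMono b.2⟩ : Iio (f l)))
    (fun a b hab => hN.strictMono hab) ?_
  rintro ⟨y, hy⟩
  by_contra hcon
  have h7 : f l ≤ y := by
    refine hN.mem_lowerBounds_upperBounds_of_isSuccLimit hlim ?_
    rintro _ ⟨b, hb, rfl⟩
    by_contra h8
    push Not at h8
    exact hcon ⟨⟨f b, hN.strictMono hb⟩, ⟨⟨b, hb⟩, rfl⟩, h8.le⟩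
  exact absurd hy (not_lt.2 h7)

/-- there is a function on `κ` all of whose fibres are stationary, onto any set of cardinality at
most `κ` -/
theorem exists_fibres (hκ : κ.IsInaccessible) (T : Type u) [Nonempty T] (hT : #T ≤ κ) :
    ∃ g : κ.ord.ToType → T, ∀ t : T, IsStationary (g ⁻¹' {t}) := by
  classical
  have h1 : #T ≤ #κ.ord.ToType := by simpa using hT
  obtain ⟨e⟩ := h1
  let r : T → Cardinal.{u} := fun t => ℵ_ (typein (α := κ.ord.ToType) (· < ·) (e t) + 1)
  have hr : Function.Injective r := by
    intro s t hst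
    have h2 := aleph.injective hst
    have h3 : typein (α := κ.ord.ToType) (· < ·) (e s) = typein (α := κ.ord.ToType) (· < ·) (e t) := by
      simpa using h2
    exact e.injective ((typein_injective (α := κ.ord.ToType) (· < ·)) h3)
  let g : κ.ord.ToType → T := fun x =>
    if h : ∃ t, r t = Order.cof (Iio x) then h.choose else Classical.arbitrary T
  refine ⟨g, fun t => (stationary_cof hκ (r t) (isRegular_aleph_add_one _) ?_).mono ?_⟩
  · have h4 : typein (α := κ.ord.ToType) (· < ·) (e t) + 1 < κ.ord := by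
      have h5 : typein (α := κ.ord.ToType) (· < ·) (e t) < κ.ord := typein_lt_self _
      have h6 : IsSuccLimit κ.ord := isSuccLimit_ord hκ.aleph0_lt.le
      simpa using h6.succ_lt h5
    calc r t < ℵ_ κ.ord := aleph_lt_aleph.2 h4
      _ = κ := hκ.aleph_ord
  · intro x hx
    have h7 : ∃ s, r s = Order.cof (Iio x) := ⟨t, hx.symm⟩
    have h8 : g x = h7.choose := dif_pos h7
    show g x = t
    rw [h8]
    exact hr (h7.choose_spec.trans hx)

end Pool.Agent.Helper79K.QP
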