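import Pool.Agent.Helper79K.QP.A

/-!
# A `κ`-complete filter extending the club filter without the Galvin property
-/

set_option autoImplicit false

open Cardinal Ordinal Set Order

namespace Pool.Agent.Helper79K.QP

universe u

variable {κ : Cardinal.{u}}

/-- pairs `(δ, 𝒮)` with `δ < κ` and `𝒮` a set of subsets of `δ` -/
abbrev T (κ : Cardinal.{u}) : Type u := Σ δ : κ.ord.ToType, Set (Set (Iio δ))

theorem mk_T_le (hκ : κ.IsInaccessible) : #(T κ) ≤ κ := by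
  rw [mk_sigma]
  have h : ∀ δ : κ.ord.ToType, #(Set (Set (Iio δ))) ≤ κ := by
    intro δ
    have h1 : #(Iio δ) < κ := by
      have := mk_Iio_lt (α := κ.ord.ToType) δ (by simp)
      simpa using this
    rw [mk_set, mk_set]
    exact (hκ.isStrongPrelimit (hκ.isStrongPrelimit h1)).le
  calc sum (fun δ : κ.ord.ToType => #(Set (Set (Iio δ)))) ≤ sum (fun _ : κ.ord.ToType => κ) :=
        sum_le_sum _ _ h
    _ = κ * κ := by simp
    _ = κ := mul_eq_self hκ.aleph0_lt.le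

/-- the set of the pairs `(δ, 𝒮)` with `Y ∩ δ ∈ 𝒮` -/
def B (Y : Set κ.ord.ToType) : Set (T κ) := {t | (Subtype.val ⁻¹' Y : Set (Iio t.1)) ∈ t.2}

theorem exists_bound (hκ : κ.IsInaccessible) {ι : Type u} (hι : #ι < κ) (d : ι → κ.ord.ToType) :
    ∃ δ, ∀ i, d i < δ := by
  by_contra hcon
  push Not at hcon
  have h1 : IsCofinal (range d) := by
    intro x
    obtain ⟨i, hi⟩ := hcon x
    exact ⟨d i, ⟨i, rfl⟩, hi⟩
  have h2 := (cof_le h1).trans mk_range_le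
  rw [cof_toType_eq hκ] at h2
  exact absurd hι (not_lt.2 h2)

theorem indep (hκ : κ.IsInaccessible) (J N : Set (Set κ.ord.ToType)) (hJ : #J < κ) (hN : #N < κ)
    (hJN : Disjoint J N) : ∃ t : T κ, (∀ Y ∈ J, t ∈ B Y) ∧ ∀ Y ∈ N, t ∉ B Y := by
  classical
  have h1 : ∀ p : J × N, ∃ d : κ.ord.ToType, ¬ (d ∈ (p.1 : Set κ.ord.ToType) ↔ d ∈ (p.2 : Set κ.ord.ToType)) := by
    intro p
    by_contra hcon
    push Not at hcon
    have h2 : (p.1 : Set κ.ord.ToType) = p.2 := Set.ext hcon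
    exact Set.disjoint_left.1 hJN p.1.2 (h2 ▸ p.2.2)
  choose d hd using h1
  obtain ⟨δ, hδ⟩ := exists_bound hκ (ι := J × N) (by
    rw [mk_prod, Cardinal.lift_id, Cardinal.lift_id]
    exact mul_lt_of_lt hκ.aleph0_lt.le hJ hN) d
  refine ⟨⟨δ, {Z | ∃ Y ∈ J, Z = Subtype.val ⁻¹' Y}⟩, fun Y hY => ⟨Y, hY, rfl⟩, ?_⟩
  rintro Y' hY' ⟨Y, hY, h⟩
  have h3 := hd (⟨Y, hY⟩, ⟨Y', hY'⟩)
  have h4 := hδ (⟨Y, hY⟩, ⟨Y', hY'⟩)
  apply h3
  have h5 := Set.ext_iff.1 h ⟨d (⟨Y, hY⟩, ⟨Y', hY'⟩), h4⟩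
  exact h5.symm

/-- `κ`-completeness of a filter -/
def Complete (κ : Cardinal.{u}) {X : Type u} (F : Filter X) : Prop :=
  ∀ S : Set (Set X), #S < κ → (∀ s ∈ S, s ∈ F) → ⋂₀ S ∈ F

theorem exists_filter (hκ : κ.IsInaccessible) : ∃ (D : Set κ.ord.ToType → Set κ.ord.ToType)
    (F : Filter κ.ord.ToType), F.NeBot ∧ Complete κ F ∧ (∀ C, IsClub C → C ∈ F) ∧
      (∀ Y, D Y ∈ F) ∧ ∀ N : Set (Set κ.ord.ToType), κ ≤ #N → (⋂ Y ∈ N, D Y)ᶜ ∈ F := by
  classical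
  have hκ0 : 0 < κ := hκ.pos
  have hreg := hκ.isRegular
  have hne : Nonempty κ.ord.ToType := by
    rw [← mk_ne_zero_iff, mk_toType, card_ord]
    exact hκ0.ne'
  have : Nonempty (T κ) := ⟨⟨Classical.arbitrary _, ∅⟩⟩
  obtain ⟨g, hg⟩ := exists_fibres hκ (T κ) (mk_T_le hκ)
  have hcof : Order.cof κ.ord.ToType ≠ ℵ₀ := by
    rw [cof_toType_eq hκ]
    exact hκ.aleph0_lt.ne'
  let D : Set κ.ord.ToType → Set κ.ord.ToType := fun Y => g ⁻¹' B Y
  -- the basic sets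
  let G : Set (Set κ.ord.ToType) := {A | ∃ C : Set κ.ord.ToType, IsClub C ∧
    ∃ J : Set (Set κ.ord.ToType), #J < κ ∧
    ∃ R : Set (Set (Set κ.ord.ToType)), #R < κ ∧ (∀ N ∈ R, κ ≤ #N) ∧
      C ∩ (⋂ Y ∈ J, D Y) ∩ (⋂ N ∈ R, (⋂ Y ∈ N, D Y)ᶜ) ⊆ A}
  have hcomp : ∀ S : Set (Set κ.ord.ToType), #S < κ → (∀ s ∈ S, s ∈ G) → ⋂₀ S ∈ G := by
    intro S hS hSG
    choose! C hC J hJ R hR hRN hsub using hSG
    refine ⟨⋂ s : S, C s, IsClub.iInter hcof ?_ fun s => hC s s.2, ⋃ s : S, J s, ?_, ⋃ s : S, R s, ?_, ?_, ?_⟩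
    · rw [cof_toType_eq hκ]
      simpa using hS
    · exact card_iUnion_lt_iff_forall_of_isRegular hreg hS |>.2 fun s => hJ s s.2
    · exact card_iUnion_lt_iff_forall_of_isRegular hreg hS |>.2 fun s => hR s s.2
    · intro N hN
      obtain ⟨s, hs⟩ := mem_iUnion.1 hN
      exact hRN s s.2 N hs
    · rintro x ⟨⟨h1, h2⟩, h3⟩ s hs
      refine hsub s hs ⟨⟨mem_iInter.1 h1 ⟨s, hs⟩, ?_⟩, ?_⟩
      · simp only [mem_iInter] at h2 ⊢
        exact fun Y hY => h2 Y (mem_iUnion.2 ⟨⟨s, hs⟩, hY⟩)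
      · simp only [mem_iInter] at h3 ⊢
        exact fun N hN => h3 N (mem_iUnion.2 ⟨⟨s, hs⟩, hN⟩)
  let F : Filter κ.ord.ToType :=
    { sets := G
      univ_sets := ⟨univ, .univ, ∅, by simpa using hκ0, ∅, by simpa using hκ0, by simp, subset_univ _⟩
      sets_of_superset := by
        rintro A A' ⟨C, hC, J, hJ, R, hR, hRN, h⟩ hAA
        exact ⟨C, hC, J, hJ, R, hR, hRN, h.trans hAA⟩
      inter_sets := by
        intro A A' hA hA'
        have h := hcomp {A, A'} (lt_of_le_of_lt (b := (2 : Cardinal)) (by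
          exact_mod_cast (mk_insert_le.trans (by simp; norm_num))) (hκ.nat_lt 2)) (by
            rintro s (rfl | rfl)
            · exact hA
            · exact hA')
        simpa using h }
  refine ⟨D, F, ?_, hcomp, ?_, ?_, ?_⟩
  · rw [Filter.neBot_iff, Ne, ← Filter.empty_mem_iff_bot]
    rintro ⟨C, hC, J, hJ, R, hR, hRN, h⟩
    have h1 : ∀ N : R, ∃ Y ∈ N.1, Y ∉ J := by
      intro N
      by_contra hcon
      push Not at hcon
      exact absurd (hRN N.1 N.2) (not_le.2 ((mk_le_mk_of_subset hcon).trans_lt hJ))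
    choose Y hY hYJ using h1
    obtain ⟨t, ht1, ht2⟩ := indep hκ J (range Y) hJ (mk_range_le.trans_lt hR) (by
      rw [Set.disjoint_left]
      rintro y hy ⟨N, rfl⟩
      exact hYJ N hy)
    obtain ⟨x, hx1, hx2⟩ := hg t hC
    refine absurd (h (a := x) ⟨⟨hx2, ?_⟩, ?_⟩) (Set.notMem_empty x)
    · simp only [mem_iInter]
      intro Z hZ
      show g x ∈ B Z
      rw [show g x = t from hx1]
      exact ht1 Z hZ
    · simp only [mem_iInter]
      intro N hN hcon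
      simp only [mem_iInter] at hcon
      have h2 := hcon (Y ⟨N, hN⟩) (hY ⟨N, hN⟩)
      have h3 : g x ∈ B (Y ⟨N, hN⟩) := h2
      rw [show g x = t from hx1] at h3
      exact ht2 _ ⟨⟨N, hN⟩, rfl⟩ h3
  · intro C hC
    exact ⟨C, hC, ∅, by simpa using hκ0, ∅, by simpa using hκ0, by simp, by
      rintro x ⟨⟨h, -⟩, -⟩
      exact h⟩
  · intro Y
    refine ⟨univ, .univ, {Y}, by simpa using hκ.nat_lt 1, ∅, by simpa using hκ0, by simp, ?_⟩
    rintro x ⟨⟨-, h⟩, -⟩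
    simpa using h
  · intro N hN
    refine ⟨univ, .univ, ∅, by simpa using hκ0, {N}, by simpa using hκ.nat_lt 1, by simpa using hN, ?_⟩
    rintro x ⟨-, h⟩
    simpa using h

end Pool.Agent.Helper79K.QP
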