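import Pool.Agent.Helper79K.QP.B

/-!
# Sums of normal ultrafilters along an ultrafilter without the Galvin property
-/

set_option autoImplicit false

open Cardinal Ordinal Set Order

namespace Pool.Agent.Helper79K.QP

universe u

variable {κ : Cardinal.{u}}

/-- normal ultrafilters on `κ` -/
structure Normal (κ : Cardinal.{u}) (V : Ultrafilter κ.ord.ToType) : Prop where
  complete : Complete κ (V : Filter κ.ord.ToType)
  tail : ∀ a, Ioi a ∈ V
  regressive : ∀ f : κ.ord.ToType → κ.ord.ToType, {x | f x < x} ∈ V → ∃ a, {x | f x = a} ∈ V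

theorem Normal.club {V : Ultrafilter κ.ord.ToType} (hV : Normal κ V) {C : Set κ.ord.ToType}
    (hC : IsClub C) : C ∈ V := by
  classical
  by_contra hcon
  rw [← Ultrafilter.compl_mem_iff_notMem] at hcon
  have hne : Nonempty κ.ord.ToType := by
    obtain ⟨x, -⟩ := V.nonempty_of_mem hcon
    exact ⟨x⟩
  obtain ⟨c₀, hc₀⟩ := hC.nonempty
  have h1 : ∀ x : κ.ord.ToType, x ∈ Cᶜ ∩ Ioi c₀ → ∃ b < x, ∀ c ∈ C, c < x → c ≤ b := by
    rintro x ⟨hx, hx0⟩
    by_contra h2
    push Not at h2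
    apply hx
    refine hC.isLUB_mem (t := C ∩ Iio x) inter_subset_left ⟨c₀, hc₀, hx0⟩ ⟨fun c hc => hc.2.le, ?_⟩
    intro b hb
    by_contra h3
    push Not at h3
    obtain ⟨c, hc, hcx, hbc⟩ := h2 b h3
    exact absurd (hb ⟨hc, hcx⟩) (not_le.2 hbc)
  choose! f hf hfC using h1
  have h4 : Cᶜ ∩ Ioi c₀ ∈ V := Filter.inter_mem hcon (hV.tail c₀)
  obtain ⟨a, ha⟩ := hV.regressive f (Filter.mem_of_superset h4 fun x hx => hf x hx)
  obtain ⟨c, hc, hac⟩ : ∃ c ∈ C, a < c := by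
    obtain ⟨b, hb⟩ := V.nonempty_of_mem (hV.tail a)
    obtain ⟨c, hc, hbc⟩ := hC.isCofinal b
    exact ⟨c, hc, lt_of_lt_of_le hb hbc⟩
  obtain ⟨x, ⟨h5, h6⟩, h7⟩ := V.nonempty_of_mem (Filter.inter_mem (Filter.inter_mem h4 ha) (hV.tail c))
  have h8 := hfC x h5 c hc h7
  rw [show f x = a from h6] at h8
  exact absurd hac (not_lt.2 h8)

/-- distinct normal ultrafilters are separated by pairwise disjoint sets -/
theorem separate (V : κ.ord.ToType → Ultrafilter κ.ord.ToType) (hV : ∀ i, Normal κ (V i))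
    (hinj : Function.Injective V) : ∃ S : κ.ord.ToType → Set κ.ord.ToType, (∀ i, S i ∈ V i) ∧
      ∀ i j x, x ∈ S i → x ∈ S j → i = j := by
  classical
  have h1 : ∀ i j : κ.ord.ToType, i ≠ j → ∃ X ∈ V i, Xᶜ ∈ V j := by
    intro i j hij
    by_contra hcon
    push Not at hcon
    apply hij
    apply hinj
    refine Ultrafilter.coe_injective (le_antisymm ?_ ?_)
    · intro s hs
      by_contra h2
      have h3 : sᶜ ∈ V i := Ultrafilter.compl_mem_iff_notMem.2 h2
      exact hcon _ h3 (by rw [compl_compl]; exact hs)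
    · intro s hs
      by_contra h2
      exact hcon s hs (Ultrafilter.compl_mem_iff_notMem.2 h2)
  choose! X hX hXc using h1
  let Z : κ.ord.ToType → κ.ord.ToType → Set κ.ord.ToType := fun i j =>
    if i < j then X i j else (X j i)ᶜ
  have hZ : ∀ i j, i ≠ j → Z i j ∈ V i := by
    intro i j hij
    by_cases h : i < j
    · simp only [Z, h, if_true]; exact hX i j hij
    · simp only [Z, h, if_false]; exact hXc j i hij.symm
  have hZZ : ∀ i j x, i ≠ j → x ∈ Z i j → x ∈ Z j i → False := by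
    intro i j x hij h h'
    rcases lt_or_gt_of_ne hij with h2 | h2
    · simp only [Z, h2, if_true, not_lt.2 h2.le, if_false] at h h'
      exact h' h
    · simp only [Z, h2, if_true, not_lt.2 h2.le, if_false] at h h'
      exact h h'
  refine ⟨fun i => {x | ∀ j < x, j ≠ i → x ∈ Z i j} ∩ Ioi i, fun i => Filter.inter_mem ?_ ((hV i).tail i), ?_⟩
  · by_contra hcon
    have h3 : {x | ∀ j < x, j ≠ i → x ∈ Z i j}ᶜ ∈ V i := Ultrafilter.compl_mem_iff_notMem.2 hcon
    have h4 : ∀ x, ∃ j, x ∈ {x | ∀ j < x, j ≠ i → x ∈ Z i j}ᶜ → (j < x ∧ j ≠ i ∧ x ∉ Z i j) := by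
      intro x
      by_cases hx : x ∈ {x | ∀ j < x, j ≠ i → x ∈ Z i j}ᶜ
      · have h4' : ∃ j < x, j ≠ i ∧ x ∉ Z i j := by simpa using hx
        obtain ⟨j, h⟩ := h4'
        exact ⟨j, fun _ => h⟩
      · exact ⟨i, fun h => absurd h hx⟩
    choose f hf' using h4
    have hf : ∀ x, x ∈ {x | ∀ j < x, j ≠ i → x ∈ Z i j}ᶜ → f x < x := fun x hx => (hf' x hx).1
    have hfi : ∀ x, x ∈ {x | ∀ j < x, j ≠ i → x ∈ Z i j}ᶜ → f x ≠ i := fun x hx => (hf' x hx).2.1
    have hfZ : ∀ x, x ∈ {x | ∀ j < x, j ≠ i → x ∈ Z i j}ᶜ → x ∉ Z i (f x) :=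
      fun x hx => (hf' x hx).2.2
    obtain ⟨a, ha⟩ := (hV i).regressive f (Filter.mem_of_superset h3 fun x hx => hf x hx)
    have h5 := Filter.inter_mem h3 ha
    have hai : a ≠ i := by
      obtain ⟨x, hx, hxa⟩ := (V i).nonempty_of_mem h5
      rw [← show f x = a from hxa]
      exact hfi x hx
    obtain ⟨x, ⟨hx, hxa⟩, hxZ⟩ := (V i).nonempty_of_mem (Filter.inter_mem h5 (hZ i a hai.symm))
    have h6 := hfZ x hx
    rw [show f x = a from hxa] at h6
    exact h6 hxZ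
  · rintro i j x ⟨h5, h6⟩ ⟨h7, h8⟩
    by_contra hij
    exact hZZ i j x hij (h5 j h8 (Ne.symm hij)) (h7 i h6 hij)

/-- The Galvin property: among any `κ⁺` sets in `F` there are `κ` whose intersection is in `F`. -/
def Galvin (κ : Cardinal.{u}) {X : Type u} (F : Filter X) : Prop :=
  ∀ A : (Order.succ κ).ord.ToType → Set X, (∀ i, A i ∈ F) →
    ∃ I : Set (Order.succ κ).ord.ToType, #I = κ ∧ (⋂ i ∈ I, A i) ∈ F

theorem sum_not_galvin (W : Ultrafilter κ.ord.ToType) (hW : Complete κ (W : Filter κ.ord.ToType))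
    (hG : ¬ Galvin κ (W : Filter κ.ord.ToType))
    (V : κ.ord.ToType → Ultrafilter κ.ord.ToType) (hV : ∀ i, Normal κ (V i))
    (hinj : Function.Injective V) :
    ∃ U : Ultrafilter κ.ord.ToType, Complete κ (U : Filter κ.ord.ToType) ∧
      (∀ C, IsClub C → C ∈ U) ∧ ¬ Galvin κ (U : Filter κ.ord.ToType) := by
  classical
  obtain ⟨S, hS, hdis⟩ := separate V hV hinj
  have hmem : ∀ s : Set κ.ord.ToType, s ∈ W.bind V ↔ {i | s ∈ V i} ∈ W := fun s => Iff.rfl
  refine ⟨W.bind V, ?_, ?_, ?_⟩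
  · intro R hR hRU
    show ⋂₀ R ∈ W.bind V
    rw [hmem]
    have h1 : ⋂₀ ((fun s => {i | s ∈ V i}) '' R) ∈ W := by
      refine hW _ (mk_image_le.trans_lt hR) ?_
      rintro _ ⟨s, hs, rfl⟩
      exact (hmem s).1 (hRU s hs)
    refine Filter.mem_of_superset h1 fun i hi => ?_
    refine (hV i).complete R hR fun s hs => ?_
    exact hi _ ⟨s, hs, rfl⟩
  · intro C hC
    rw [hmem]
    exact Filter.mem_of_superset Filter.univ_mem fun i _ => (hV i).club hC
  · intro hcon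
    apply hG
    intro A hA
    have hne : Nonempty κ.ord.ToType := by
      obtain ⟨x, -⟩ := W.nonempty_of_mem (Filter.univ_mem (f := (W : Filter κ.ord.ToType)))
      exact ⟨x⟩
    let π : κ.ord.ToType → κ.ord.ToType := fun x =>
      if h : ∃ i, x ∈ S i then h.choose else Classical.arbitrary _
    have hπ : ∀ i x, x ∈ S i → π x = i := by
      intro i x hx
      have h : ∃ i, x ∈ S i := ⟨i, hx⟩
      have h2 : π x = h.choose := dif_pos h
      rw [h2]
      exact hdis _ _ x h.choose_spec hx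
    obtain ⟨I, hI, hIU⟩ := hcon (fun i => π ⁻¹' A i) (by
      intro i
      show π ⁻¹' A i ∈ W.bind V
      rw [hmem]
      refine Filter.mem_of_superset (hA i) fun j hj => ?_
      refine Filter.mem_of_superset (hS j) fun x hx => ?_
      show π x ∈ A i
      rw [hπ j x hx]
      exact hj)
    refine ⟨I, hI, ?_⟩
    have h3 : {j | (⋂ i ∈ I, π ⁻¹' A i) ∈ V j} ∈ W := (hmem _).1 hIU
    refine Filter.mem_of_superset h3 fun j hj => ?_
    obtain ⟨x, hx1, hx2⟩ := (V j).nonempty_of_mem (Filter.inter_mem hj (hS j))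
    simp only [mem_iInter] at hx1 ⊢
    intro i hi
    have h4 : π x ∈ A i := hx1 i hi
    rwa [hπ j x hx2] at h4

theorem not_galvin_of_family {F : Filter κ.ord.ToType}
    (hF : F.NeBot) (D : Set κ.ord.ToType → Set κ.ord.ToType) (hD : ∀ Y, D Y ∈ F)
    (hN : ∀ N : Set (Set κ.ord.ToType), κ ≤ #N → (⋂ Y ∈ N, D Y)ᶜ ∈ F) : ¬ Galvin κ F := by
  intro hG
  have h1 : #(Order.succ κ).ord.ToType ≤ #(Set κ.ord.ToType) := by
    rw [mk_toType, card_ord, mk_set, mk_toType, card_ord]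
    exact Order.succ_le_of_lt (cantor κ)
  obtain ⟨e⟩ := h1
  obtain ⟨I, hI, hIF⟩ := hG (fun i => D (e i)) (fun i => hD _)
  have h2 : (⋂ Y ∈ e '' I, D Y)ᶜ ∈ F := hN _ (by
    rw [mk_image_eq e.injective, hI])
  have h3 : (⋂ i ∈ I, D (e i)) = ⋂ Y ∈ e '' I, D Y := by
    simp
  rw [h3] at hIF
  have h4 := Filter.inter_mem hIF h2
  rw [inter_compl_self] at h4
  exact hF.ne (Filter.empty_mem_iff_bot.1 h4)

end Pool.Agent.Helper79K.QP
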